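import Pool.Agent.W313.Gr.Two

/-!
The growth of the order of vanishing of the `L`-function of an elliptic curve over a function field
in finite extensions, modulo a prime dividing the numbers of points of the reductions.
-/

set_option autoImplicit false
set_option linter.all false
set_option maxHeartbeats 4000000

open Polynomial Pool.Agent.W343.BSD Pool.Agent.W313.Gr

namespace Pool.Agent.Results.MP_ff7320_nt.TorsionGrowth

/-- Let `K` and `K'`, a finite extension of `K`, be function fields of curves over the finite field
`k` with `q` elements, of characteristic at least `5`, and `E : y ^ 2 = x ^ 3 + a x + b` an elliptic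
curve over `K`. Let `l` be a prime other than the characteristic which divides the numbers of points
of all good reductions of `E` over `K` and over `K'`. If
`L(T, E/K') = L(T, E/K) (1 - q T) ^ m G(T)` with an integral polynomial `G`, then `m` is at most the
growth of `rootSum + weightSum` from `K` to `K'`. If `rootSum` does not grow and every place of bad
reduction has only one place over it, of residue degree prime to `l (l - 1)`, then `m = 0`; then the
order of vanishing of `L(T, E/K')` at `1 / q` is that of `L(T, E/K)`, and the rank conjecture for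
`E/K` implies that for `E/K'`. -/
theorem result (k K K' : Type) [Field k] [Finite k] [Field K] [Algebra k K] [Field K']
    [Algebra k K'] [Algebra K K'] [IsScalarTower k K K'] [FiniteDimensional K K']
    (h6 : (6 : k) ≠ 0) (hK : IsCurveField k K) (hK' : IsCurveField k K') (a b : K)
    (hE : 4 * a ^ 3 + 27 * b ^ 2 ≠ 0) (l : ℕ) (hl : l.Prime) (hlk : (l : k) ≠ 0)
    (hN : PointsDvd l k a b) (hN' : PointsDvd l k (algebraMap K K' a) (algebraMap K K' b)) :
    ∃ P P' : ℤ[X], IsNumerator k K P ∧ IsNumerator k K' P' ∧
      (∀ m : ℕ, Grows k K' a b m → m + rootSum l k P + weightSum l k a b ≤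
        rootSum l k P' + weightSum l k (algebraMap K K' a) (algebraMap K K' b)) ∧
      (rootSum l k P' ≤ rootSum l k P → InertPrime l k K' a b → NoGrowth k K' a b) := by
  have hFF : FF.IsFF k K := ⟨hK.essFiniteType, hK.trdeg_eq_one⟩
  have hFF' : FF.IsFF k K' := ⟨hK'.essFiniteType, hK'.trdeg_eq_one⟩
  have hc := constDeg_eq_one hK.algClosed
  have hc' := constDeg_eq_one hK'.algClosed
  have := Fact.mk hl
  obtain ⟨P, hP, hP1⟩ := exists_num_rel k K
  obtain ⟨P', hP', hP1'⟩ := exists_num_rel k K'
  exact ⟨P, P', ⟨(S.isZetaNum_iff P).2 hP, hP1.trans (by rw [S.classNumber_eq])⟩,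
    ⟨(S.isZetaNum_iff P').2 hP', hP1'.trans (by rw [S.classNumber_eq])⟩,
    fun m hm => growthL hlk hE hN hN' hP hc hP' hc' hm,
    fun hz hin => noGrowth_inert h6 hlk hE hN hN' hP hc hP' hc' hz hin⟩

end Pool.Agent.Results.MP_ff7320_nt.TorsionGrowth
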